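import Pool.Agent.Helper17.Rg.Goals

/-!
# Packet RG-APX
-/

set_option autoImplicit false

namespace Pool.Agent.Helper19.Rg

open Pool.Agent.Helper17.Rg

lemma split {r : ℕ} (f : Fin r → ℝ) (g : Fin r → Bool) (l : Fin r → ℕ) :
    ∑ t, f t / (gb (g t) : ℝ) ^ l t = pt2 f g l + pt3 f g l := by
  unfold pt2 pt3
  rw [← Finset.sum_add_distrib]
  refine Finset.sum_congr rfl fun t _ => ?_
  cases h : g t <;> simp [gb]

lemma splitQ {r : ℕ} (f : Fin r → ℚ) (g : Fin r → Bool) (l : Fin r → ℕ) :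
    ∑ t, f t / (gb (g t) : ℚ) ^ l t =
      (∑ t, if g t then 0 else f t / (2 : ℚ) ^ l t) + ∑ t, if g t then f t / (3 : ℚ) ^ l t else 0 := by
  rw [← Finset.sum_add_distrib]
  refine Finset.sum_congr rfl fun t _ => ?_
  cases h : g t <;> simp [gb]

lemma pt2_cast {r : ℕ} (f : Fin r → ℚ) (g : Fin r → Bool) (l : Fin r → ℕ) :
    pt2 (fun t => (f t : ℝ)) g l = ((∑ t, if g t then 0 else f t / (2 : ℚ) ^ l t : ℚ) : ℝ) := by
  unfold pt2
  push_cast
  refine Finset.sum_congr rfl fun t _ => ?_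
  cases h : g t <;> simp

lemma pt3_cast {r : ℕ} (f : Fin r → ℚ) (g : Fin r → Bool) (l : Fin r → ℕ) :
    pt3 (fun t => (f t : ℝ)) g l = ((∑ t, if g t then f t / (3 : ℚ) ^ l t else 0 : ℚ) : ℝ) := by
  unfold pt3
  push_cast
  refine Finset.sum_congr rfl fun t _ => ?_
  cases h : g t <;> simp

lemma sumInt {r : ℕ} (F : Fin r → ℚ) (q : ℚ) (h : ∀ t, ∃ z : ℤ, F t * q = z) :
    ∃ z : ℤ, (∑ t, F t) * q = z := by
  choose z hz using h
  refine ⟨∑ t, z t, ?_⟩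
  rw [Finset.sum_mul]
  push_cast
  exact Finset.sum_congr rfl fun t _ => hz t

/-- one term times a high power of the base is an integer -/
lemma termInt {u : ℚ} {D : ℕ} (hD : ∃ z : ℤ, (D : ℚ) * u = z) {b : ℕ} (hb : b ≠ 0) {l a : ℕ}
    (hla : l ≤ a) : ∃ z : ℤ, (u / (b : ℚ) ^ l) * ((D : ℚ) * (b : ℚ) ^ a) = z := by
  obtain ⟨z, hz⟩ := hD
  have hb' : (b : ℚ) ≠ 0 := by exact_mod_cast hb
  refine ⟨z * (b : ℤ) ^ (a - l), ?_⟩
  push_cast
  rw [← hz]
  have : (b : ℚ) ^ a = (b : ℚ) ^ (a - l) * (b : ℚ) ^ l := by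
    rw [← pow_add]; congr 1; omega
  rw [this]
  field_simp

theorem apx (h1 : Exact) (h2 : TwoPart) (h3 : ZInt) : Apx := by
  classical
  intro r c g H C C2 K hC hC2
  set c' : Fin r → ℚ := fun t => if g t then (c t : ℚ) else -(c t : ℚ) with hc'
  obtain ⟨N1, U, hU⟩ := h1 r c' g H C (2 * |K|) hC
  set cu : (Fin r → ℚ) → Fin r → ℚ := fun u t => if g t then u t - c t else (c t : ℚ) + u t
    with hcu
  have h2' : ∀ u : Fin r → ℚ, ∃ (N0 : ℕ) (K' : ℝ), ∀ N : ℕ, N0 ≤ N → ∀ l : Fin r → ℕ,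
      (∀ t, N ≤ l t ∧ l t ≤ H * N) →
      |∑ t, (cu u t : ℝ) / (gb (g t) : ℝ) ^ l t| ≤ (2 * |K|) * (2 : ℝ) ^ (-C * N) →
      |pt2 (fun t => (cu u t : ℝ)) g l| ≤ K' * (2 : ℝ) ^ (-C2 * N) :=
    fun u => h2 r (cu u) g H C C2 (2 * |K|) hC2
  choose N2 K2 hN2 using h2'
  set D : ℕ := ∏ u ∈ U, ∏ t, (u t).den with hD
  have hDpos : 0 < D := Finset.prod_pos fun u _ => Finset.prod_pos fun t _ => (u t).den_pos
  have hDint : ∀ u ∈ U, ∀ t, ∃ z : ℤ, (D : ℚ) * u t = z := by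
    intro u hu t
    have hdvd : (u t).den ∣ D :=
      (Finset.dvd_prod_of_mem (fun t => (u t).den) (Finset.mem_univ t)).trans
        (Finset.dvd_prod_of_mem (fun u : Fin r → ℚ => ∏ t, (u t).den) hu)
    obtain ⟨e, he⟩ := hdvd
    refine ⟨e * (u t).num, ?_⟩
    rw [he]
    push_cast
    have h4 := Rat.mul_den_eq_num (u t)
    calc ((u t).den : ℚ) * e * u t = e * (u t * (u t).den) := by ring
      _ = e * (u t).num := by rw [h4]
  refine ⟨N1 + ∑ u ∈ U, N2 u, D, |K| + ∑ u ∈ U, |K2 u|, hDpos, ?_⟩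
  intro N hN x A B l hl hA hB
  have hNN : (0 : ℝ) ≤ N := Nat.cast_nonneg N
  have hP : |(((A * 3 ^ N - B * 2 ^ N : ℤ)) : ℝ) / 6 ^ N -
      ∑ t, (c' t : ℝ) / (gb (g t) : ℝ) ^ l t| ≤ 2 * |K| * (2 : ℝ) ^ (-C * N) := by
    have e1 : (((A * 3 ^ N - B * 2 ^ N : ℤ)) : ℝ) / 6 ^ N = A / 2 ^ N - B / 3 ^ N := by
      push_cast
      have : (6 : ℝ) ^ N = 2 ^ N * 3 ^ N := by rw [← mul_pow]; norm_num
      rw [this]
      field_simp
    have e2 : ∑ t, (c' t : ℝ) / (gb (g t) : ℝ) ^ l t =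
        pt3 (fun t => (c t : ℝ)) g l - pt2 (fun t => (c t : ℝ)) g l := by
      unfold pt2 pt3
      rw [← Finset.sum_sub_distrib]
      refine Finset.sum_congr rfl fun t _ => ?_
      cases h : g t <;> simp [hc', gb, h] <;> ring
    rw [e1, e2]
    have hpow : (0 : ℝ) < (2 : ℝ) ^ (-C * N) := by positivity
    have hK := mul_le_mul_of_nonneg_right (le_abs_self K) hpow.le
    rw [abs_le] at hA hB ⊢
    constructor
    · linarith [hA.1, hA.2, hB.1, hB.2]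
    · linarith [hA.1, hA.2, hB.1, hB.2]
  obtain ⟨u, huU, hu⟩ := hU N (by omega) l (A * 3 ^ N - B * 2 ^ N) (fun t => (hl t).2) hP
  -- the exact relation
  set q2 : ℚ := ∑ t, if g t then 0 else u t / (2 : ℚ) ^ l t with hq2
  set q3 : ℚ := ∑ t, if g t then u t / (3 : ℚ) ^ l t else 0 with hq3
  have hrel : (A : ℚ) / 2 ^ N - B / 3 ^ N = q2 + q3 := by
    rw [splitQ u g l] at hu
    rw [hq2, hq3, ← hu]
    push_cast
    have : (6 : ℚ) ^ N = 2 ^ N * 3 ^ N := by rw [← mul_pow]; norm_num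
    rw [this]
    field_simp
  set y : ℚ := (A : ℚ) / 2 ^ N - q2 with hy
  have hy3 : y = (B : ℚ) / 3 ^ N + q3 := by rw [hy]; linarith
  set a : ℕ := N + ∑ t, l t with ha
  have hla : ∀ t, l t ≤ a := by
    intro t
    have h5 : l t ≤ ∑ t, l t :=
      Finset.single_le_sum (f := fun t => l t) (fun t _ => Nat.zero_le _) (Finset.mem_univ t)
    omega
  have hint2 : ∃ m : ℤ, (D : ℚ) * y * 2 ^ a = m := by
    obtain ⟨m1, hm1⟩ : ∃ z : ℤ, q2 * ((D : ℚ) * (2 : ℚ) ^ a) = z := by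
      apply sumInt
      intro t
      split_ifs with h
      · exact ⟨0, by simp⟩
      · exact_mod_cast termInt (hDint u huU t) (b := 2) (by norm_num) (hla t)
    obtain ⟨m2, hm2⟩ := termInt (u := (A : ℚ)) (D := D) ⟨D * A, by push_cast; ring⟩ (b := 2)
      (by norm_num) (l := N) (a := a) (by omega)
    refine ⟨m2 - m1, ?_⟩
    push_cast
    push_cast at hm2
    rw [← hm1, ← hm2, hy]
    ring
  have hint3 : ∃ m : ℤ, (D : ℚ) * y * 3 ^ a = m := by
    obtain ⟨m1, hm1⟩ : ∃ z : ℤ, q3 * ((D : ℚ) * (3 : ℚ) ^ a) = z := by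
      apply sumInt
      intro t
      split_ifs with h
      · exact_mod_cast termInt (hDint u huU t) (b := 3) (by norm_num) (hla t)
      · exact ⟨0, by simp⟩
    obtain ⟨m2, hm2⟩ := termInt (u := (B : ℚ)) (D := D) ⟨D * B, by push_cast; ring⟩ (b := 3)
      (by norm_num) (l := N) (a := a) (by omega)
    refine ⟨m2 + m1, ?_⟩
    push_cast
    push_cast at hm2
    rw [← hm1, ← hm2, hy3]
    ring
  obtain ⟨m2, hm2⟩ := hint2
  obtain ⟨m3, hm3⟩ := hint3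
  obtain ⟨n, hn⟩ := h3 ((D : ℚ) * y) a a m2 m3 hm2 hm3
  refine ⟨n, ?_⟩
  have hDR : (0 : ℝ) < D := by exact_mod_cast hDpos
  have hyn : (n : ℝ) / D = (y : ℝ) := by
    rw [div_eq_iff hDR.ne', ← Rat.cast_natCast, ← Rat.cast_intCast, ← Rat.cast_mul, mul_comm, hn]
  rw [hyn]
  have hyR : (y : ℝ) = A / 2 ^ N - pt2 (fun t => (u t : ℝ)) g l := by
    rw [hy, pt2_cast, ← hq2, Rat.cast_sub, Rat.cast_div, Rat.cast_pow, Rat.cast_intCast,
      Rat.cast_ofNat]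
  have hrelR : (A : ℝ) / 2 ^ N - B / 3 ^ N =
      pt2 (fun t => (u t : ℝ)) g l + pt3 (fun t => (u t : ℝ)) g l := by
    rw [pt2_cast, pt3_cast, ← hq2, ← hq3, ← Rat.cast_add, ← hrel]
    simp
  have hcu2 : pt2 (fun t => (cu u t : ℝ)) g l =
      pt2 (fun t => (c t : ℝ)) g l + pt2 (fun t => (u t : ℝ)) g l := by
    unfold pt2
    rw [← Finset.sum_add_distrib]
    refine Finset.sum_congr rfl fun t _ => ?_
    cases h : g t <;> simp [hcu, h] <;> ring
  have hcu3 : pt3 (fun t => (cu u t : ℝ)) g l =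
      pt3 (fun t => (u t : ℝ)) g l - pt3 (fun t => (c t : ℝ)) g l := by
    unfold pt3
    rw [← Finset.sum_sub_distrib]
    refine Finset.sum_congr rfl fun t _ => ?_
    cases h : g t <;> simp [hcu, h] <;> ring
  have hpow : (0 : ℝ) < (2 : ℝ) ^ (-C * N) := by positivity
  have hpow2 : (0 : ℝ) < (2 : ℝ) ^ (-C2 * N) := by positivity
  have hK := mul_le_mul_of_nonneg_right (le_abs_self K) hpow.le
  have hN2' : N2 u ≤ N := by
    have h5 : N2 u ≤ ∑ u ∈ U, N2 u :=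
      Finset.single_le_sum (f := fun u => N2 u) (fun u _ => Nat.zero_le _) huU
    omega
  have htwo := hN2 u N hN2' l hl (by
    rw [split, hcu2, hcu3]
    rw [abs_le] at hA hB ⊢
    constructor
    · linarith [hA.1, hA.2, hB.1, hB.2]
    · linarith [hA.1, hA.2, hB.1, hB.2])
  rw [hcu2] at htwo
  have hK2 : K2 u * (2 : ℝ) ^ (-C2 * N) ≤ (∑ u ∈ U, |K2 u|) * (2 : ℝ) ^ (-C2 * N) := by
    apply mul_le_mul_of_nonneg_right _ hpow2.le
    exact (le_abs_self _).trans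
      (Finset.single_le_sum (f := fun u => |K2 u|) (fun u _ => abs_nonneg _) huU)
  have hCC : |K| * (2 : ℝ) ^ (-C * N) ≤ |K| * (2 : ℝ) ^ (-C2 * N) := by
    apply mul_le_mul_of_nonneg_left _ (abs_nonneg K)
    apply Real.rpow_le_rpow_of_exponent_le (by norm_num)
    nlinarith
  have hfin : x - (y : ℝ) = (x - A / 2 ^ N - pt2 (fun t => (c t : ℝ)) g l) +
      (pt2 (fun t => (c t : ℝ)) g l + pt2 (fun t => (u t : ℝ)) g l) := by
    rw [hyR]; ring
  rw [hfin, add_mul]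
  exact (abs_add_le _ _).trans (add_le_add (hA.trans (hK.trans hCC)) (htwo.trans hK2))

end Pool.Agent.Helper19.Rg
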